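import Pool.Agent.J4H58.XC.Stm3

/-!
# Project XC (helper58): X13, regularisation of a 1-symmetric log-concave density
-/

set_option autoImplicit false

namespace Pool.Agent.J4H17.XC

open MeasureTheory Set Filter Topology Pool.Agent.J4H58.XC

variable {n : ℕ}

/-- the sup-convolution with `exp (-k ‖x‖)` -/
noncomputable def rk (ρ : EuclideanSpace ℝ (Fin n) → ℝ) (k : ℕ) (x : EuclideanSpace ℝ (Fin n)) : ℝ :=
  ⨆ y, ρ y * Real.exp (-((k : ℝ) * ‖x - y‖))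

theorem le_zero {ρ : EuclideanSpace ℝ (Fin n) → ℝ} (h : Sd ρ) (y : EuclideanSpace ℝ (Fin n)) : ρ y ≤ ρ 0 := by
  have h1 := h.logc y (-y) (1 / 2) (by norm_num) (by norm_num)
  have h2 : ρ (-y) = ρ y := h.inv (Equiv.refl _) y (-y) (fun i => by simp)
  have h3 : ((1 : ℝ) - 1 / 2) • y + (1 / 2 : ℝ) • (-y) = 0 := by
    rw [smul_neg, show ((1 : ℝ) - 1 / 2) = 1 / 2 by norm_num]
    exact add_neg_cancel _
  rw [h2, h3, show ((1 : ℝ) - 1 / 2) = 1 / 2 by norm_num] at h1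
  have h4 : ρ y ^ (1 / 2 : ℝ) * ρ y ^ (1 / 2 : ℝ) = ρ y := by
    rw [← Real.sqrt_eq_rpow]
    exact Real.mul_self_sqrt (h.nonneg y)
  rwa [h4] at h1

theorem term_le {ρ : EuclideanSpace ℝ (Fin n) → ℝ} (h : Sd ρ) (k : ℕ) (x y : EuclideanSpace ℝ (Fin n)) :
    ρ y * Real.exp (-((k : ℝ) * ‖x - y‖)) ≤ ρ 0 := by
  have h1 : Real.exp (-((k : ℝ) * ‖x - y‖)) ≤ 1 := by
    rw [Real.exp_le_one_iff]
    have : 0 ≤ (k : ℝ) * ‖x - y‖ := by positivity
    linarith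
  calc ρ y * Real.exp (-((k : ℝ) * ‖x - y‖)) ≤ ρ y * 1 := mul_le_mul_of_nonneg_left h1 (h.nonneg y)
    _ = ρ y := mul_one _
    _ ≤ ρ 0 := le_zero h y

theorem bdd {ρ : EuclideanSpace ℝ (Fin n) → ℝ} (h : Sd ρ) (k : ℕ) (x : EuclideanSpace ℝ (Fin n)) :
    BddAbove (range fun y => ρ y * Real.exp (-((k : ℝ) * ‖x - y‖))) :=
  ⟨ρ 0, by rintro _ ⟨y, rfl⟩; exact term_le h k x y⟩

theorem le_rk {ρ : EuclideanSpace ℝ (Fin n) → ℝ} (h : Sd ρ) (k : ℕ) (x y : EuclideanSpace ℝ (Fin n)) :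
    ρ y * Real.exp (-((k : ℝ) * ‖x - y‖)) ≤ rk ρ k x := le_ciSup (bdd h k x) y

theorem rk_le {ρ : EuclideanSpace ℝ (Fin n) → ℝ} (k : ℕ) (x : EuclideanSpace ℝ (Fin n)) {M : ℝ}
    (hM : ∀ y, ρ y * Real.exp (-((k : ℝ) * ‖x - y‖)) ≤ M) : rk ρ k x ≤ M := ciSup_le hM

theorem rk_ge {ρ : EuclideanSpace ℝ (Fin n) → ℝ} (h : Sd ρ) (k : ℕ) (x : EuclideanSpace ℝ (Fin n)) : ρ x ≤ rk ρ k x := by
  have := le_rk h k x x
  simpa using this

theorem rk_nonneg {ρ : EuclideanSpace ℝ (Fin n) → ℝ} (h : Sd ρ) (k : ℕ) (x : EuclideanSpace ℝ (Fin n)) : 0 ≤ rk ρ k x :=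
  (h.nonneg x).trans (rk_ge h k x)

theorem rk_lip {ρ : EuclideanSpace ℝ (Fin n) → ℝ} (h : Sd ρ) (k : ℕ) (x x' : EuclideanSpace ℝ (Fin n)) :
    rk ρ k x ≤ Real.exp ((k : ℝ) * ‖x - x'‖) * rk ρ k x' := by
  apply rk_le
  intro y
  have h1 := le_rk h k x' y
  have h2 : Real.exp (-((k : ℝ) * ‖x - y‖)) ≤
      Real.exp ((k : ℝ) * ‖x - x'‖) * Real.exp (-((k : ℝ) * ‖x' - y‖)) := by
    rw [← Real.exp_add]
    apply Real.exp_le_exp.2
    have h3 : ‖x' - y‖ ≤ ‖x - x'‖ + ‖x - y‖ := by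
      have : x' - y = -(x - x') + (x - y) := by abel
      rw [this]
      refine (norm_add_le _ _).trans ?_
      rw [norm_neg]
    have h4 : (k : ℝ) * ‖x' - y‖ ≤ (k : ℝ) * (‖x - x'‖ + ‖x - y‖) := mul_le_mul_of_nonneg_left h3 (by positivity)
    linarith
  calc ρ y * Real.exp (-((k : ℝ) * ‖x - y‖)) ≤
      ρ y * (Real.exp ((k : ℝ) * ‖x - x'‖) * Real.exp (-((k : ℝ) * ‖x' - y‖))) :=
        mul_le_mul_of_nonneg_left h2 (h.nonneg y)
    _ = Real.exp ((k : ℝ) * ‖x - x'‖) * (ρ y * Real.exp (-((k : ℝ) * ‖x' - y‖))) := by ring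
    _ ≤ _ := mul_le_mul_of_nonneg_left h1 (Real.exp_pos _).le

theorem rk_cont {ρ : EuclideanSpace ℝ (Fin n) → ℝ} (h : Sd ρ) (k : ℕ) : Continuous (rk ρ k) := by
  rw [continuous_iff_continuousAt]
  intro x₀
  have e1 : Tendsto (fun x : EuclideanSpace ℝ (Fin n) => Real.exp ((k : ℝ) * ‖x - x₀‖) * rk ρ k x₀) (𝓝 x₀) (𝓝 (rk ρ k x₀)) := by
    have hc : Continuous (fun x : EuclideanSpace ℝ (Fin n) => Real.exp ((k : ℝ) * ‖x - x₀‖) * rk ρ k x₀) := by fun_prop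
    have := hc.tendsto x₀
    simpa using this
  have e2 : Tendsto (fun x : EuclideanSpace ℝ (Fin n) => Real.exp (-((k : ℝ) * ‖x₀ - x‖)) * rk ρ k x₀) (𝓝 x₀) (𝓝 (rk ρ k x₀)) := by
    have hc : Continuous (fun x : EuclideanSpace ℝ (Fin n) => Real.exp (-((k : ℝ) * ‖x₀ - x‖)) * rk ρ k x₀) := by fun_prop
    have := hc.tendsto x₀
    simpa using this
  refine tendsto_of_tendsto_of_tendsto_of_le_of_le e2 e1 ?_ ?_
  · intro x
    have h1 := rk_lip h k x₀ x
    have h2 : Real.exp (-((k : ℝ) * ‖x₀ - x‖)) * (Real.exp ((k : ℝ) * ‖x₀ - x‖) * rk ρ k x) = rk ρ k x := by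
      rw [← mul_assoc, ← Real.exp_add, neg_add_cancel, Real.exp_zero, one_mul]
    show Real.exp (-((k : ℝ) * ‖x₀ - x‖)) * rk ρ k x₀ ≤ rk ρ k x
    rw [← h2]
    exact mul_le_mul_of_nonneg_left h1 (Real.exp_pos _).le
  · intro x
    exact rk_lip h k x x₀

theorem sup_rpow {ι : Type*} [Nonempty ι] {a : ι → ℝ} (ha : ∀ u, 0 ≤ a u) (hbd : BddAbove (range a)) {b c s : ℝ}
    (hb : 0 ≤ b) (hc : 0 ≤ c) (hs : 0 < s) (h : ∀ u, a u ^ s * b ≤ c) : (⨆ u, a u) ^ s * b ≤ c := by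
  rcases hb.eq_or_lt with h0 | h0
  · rw [← h0, mul_zero]; exact hc
  · have h1 : (⨆ u, a u) ≤ (c / b) ^ (1 / s) := by
      apply ciSup_le
      intro u
      have h2 : a u ^ s ≤ c / b := by rw [le_div_iff₀ h0]; exact h u
      calc a u = (a u ^ s) ^ (1 / s) := by
            rw [← Real.rpow_mul (ha u), mul_one_div_cancel hs.ne', Real.rpow_one]
        _ ≤ (c / b) ^ (1 / s) := Real.rpow_le_rpow (Real.rpow_nonneg (ha u) _) h2 (by positivity)
    have h3 : 0 ≤ ⨆ u, a u := by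
      obtain ⟨u⟩ := ‹Nonempty ι›
      exact (ha u).trans (le_ciSup hbd u)
    have h4 : (⨆ u, a u) ^ s ≤ c / b := by
      calc (⨆ u, a u) ^ s ≤ ((c / b) ^ (1 / s)) ^ s := Real.rpow_le_rpow h3 h1 hs.le
        _ = c / b := by
          rw [← Real.rpow_mul (by positivity), one_div_mul_cancel hs.ne', Real.rpow_one]
    rwa [le_div_iff₀ h0] at h4

theorem rk_logc {ρ : EuclideanSpace ℝ (Fin n) → ℝ} (h : Sd ρ) (k : ℕ) (x y : EuclideanSpace ℝ (Fin n)) (t : ℝ)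
    (h0 : 0 < t) (h1 : t < 1) : rk ρ k x ^ (1 - t) * rk ρ k y ^ t ≤ rk ρ k ((1 - t) • x + t • y) := by
  have hn : ∀ (x y : EuclideanSpace ℝ (Fin n)), 0 ≤ ρ y * Real.exp (-((k : ℝ) * ‖x - y‖)) :=
    fun x y => mul_nonneg (h.nonneg y) (Real.exp_pos _).le
  have key : ∀ u v : EuclideanSpace ℝ (Fin n), (ρ u * Real.exp (-((k : ℝ) * ‖x - u‖))) ^ (1 - t) *
      (ρ v * Real.exp (-((k : ℝ) * ‖y - v‖))) ^ t ≤ rk ρ k ((1 - t) • x + t • y) := by
    intro u v
    have h2 := le_rk h k ((1 - t) • x + t • y) ((1 - t) • u + t • v)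
    refine le_trans ?_ h2
    rw [Real.mul_rpow (h.nonneg u) (Real.exp_pos _).le, Real.mul_rpow (h.nonneg v) (Real.exp_pos _).le,
      ← Real.exp_mul, ← Real.exp_mul]
    have h3 := h.logc u v t h0 h1
    have h4 : ‖(1 - t) • x + t • y - ((1 - t) • u + t • v)‖ ≤ (1 - t) * ‖x - u‖ + t * ‖y - v‖ := by
      have : (1 - t) • x + t • y - ((1 - t) • u + t • v) = (1 - t) • (x - u) + t • (y - v) := by
        rw [smul_sub, smul_sub]; abel
      rw [this]
      refine (norm_add_le _ _).trans ?_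
      rw [norm_smul, norm_smul, Real.norm_eq_abs, Real.norm_eq_abs, abs_of_pos (by linarith : 0 < 1 - t), abs_of_pos h0]
    have h5 : (k : ℝ) * ‖(1 - t) • x + t • y - ((1 - t) • u + t • v)‖ ≤ (k : ℝ) * ((1 - t) * ‖x - u‖ + t * ‖y - v‖) :=
      mul_le_mul_of_nonneg_left h4 (by positivity)
    calc ρ u ^ (1 - t) * Real.exp (-((k : ℝ) * ‖x - u‖) * (1 - t)) * (ρ v ^ t * Real.exp (-((k : ℝ) * ‖y - v‖) * t)) =
        ρ u ^ (1 - t) * ρ v ^ t * (Real.exp (-((k : ℝ) * ‖x - u‖) * (1 - t)) * Real.exp (-((k : ℝ) * ‖y - v‖) * t)) := by ring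
      _ = ρ u ^ (1 - t) * ρ v ^ t * Real.exp (-((k : ℝ) * ‖x - u‖) * (1 - t) + -((k : ℝ) * ‖y - v‖) * t) := by
        rw [← Real.exp_add]
      _ ≤ ρ ((1 - t) • u + t • v) * Real.exp (-((k : ℝ) * ‖(1 - t) • x + t • y - ((1 - t) • u + t • v)‖)) := by
        apply mul_le_mul h3 _ (Real.exp_pos _).le (h.nonneg _)
        apply Real.exp_le_exp.2
        linarith
  have hr0 := rk_nonneg h k ((1 - t) • x + t • y)
  have step : ∀ v : EuclideanSpace ℝ (Fin n), rk ρ k x ^ (1 - t) * (ρ v * Real.exp (-((k : ℝ) * ‖y - v‖))) ^ t ≤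
      rk ρ k ((1 - t) • x + t • y) := by
    intro v
    exact sup_rpow (fun u => hn x u) (bdd h k x) (Real.rpow_nonneg (hn y v) _) hr0 (by linarith) (fun u => key u v)
  have := sup_rpow (a := fun v => ρ v * Real.exp (-((k : ℝ) * ‖y - v‖))) (b := rk ρ k x ^ (1 - t))
    (fun v => hn y v) (bdd h k y) (Real.rpow_nonneg (rk_nonneg h k x) _) hr0 h0
    (fun v => by rw [mul_comm]; exact step v)
  rw [mul_comm]
  exact this

open Classical in
theorem rk_inv_le {ρ : EuclideanSpace ℝ (Fin n) → ℝ} (h : Sd ρ) (k : ℕ) (σ : Equiv.Perm (Fin n))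
    (x y : EuclideanSpace ℝ (Fin n)) (hxy : ∀ i, |y i| = |x (σ i)|) : rk ρ k y ≤ rk ρ k x := by
  apply rk_le
  intro u
  set ε : Fin n → ℝ := fun i => if y i = x (σ i) then 1 else -1 with hε
  have hε1 : ∀ i, ε i = 1 ∨ ε i = -1 := by
    intro i
    simp only [hε]
    split_ifs
    · exact Or.inl rfl
    · exact Or.inr rfl
  have hεy : ∀ i, y i = ε i * x (σ i) := by
    intro i
    simp only [hε]
    split_ifs with h1
    · rw [one_mul]; exact h1
    · rcases abs_eq_abs.1 (hxy i) with h2 | h2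
      · exact absurd h2 h1
      · rw [h2]; ring
  set u' : EuclideanSpace ℝ (Fin n) := WithLp.toLp 2 (fun j => ε (σ.symm j) * u (σ.symm j)) with hu'
  have hu1 : ∀ i, u' (σ i) = ε i * u i := by
    intro i
    simp only [hu', Equiv.symm_apply_apply]
  have h1 : ρ u = ρ u' := by
    apply h.inv σ u' u
    intro i
    rw [hu1, abs_mul]
    rcases hε1 i with h2 | h2 <;> rw [h2] <;> simp
  have h2 : ‖y - u‖ = ‖x - u'‖ := by
    rw [EuclideanSpace.norm_eq, EuclideanSpace.norm_eq]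
    congr 1
    rw [← Equiv.sum_comp σ (fun j => ‖(x - u') j‖ ^ 2)]
    apply Finset.sum_congr rfl
    intro i _
    have e1 : (x - u') (σ i) = x (σ i) - u' (σ i) := rfl
    have e2 : (y - u) i = y i - u i := rfl
    rw [e1, e2, hu1, hεy]
    rcases hε1 i with h2 | h2 <;> rw [h2]
    · simp
    · rw [← norm_neg]
      congr 2
      ring
  rw [h1, h2]
  exact le_rk h k x u'

theorem rk_inv {ρ : EuclideanSpace ℝ (Fin n) → ℝ} (h : Sd ρ) (k : ℕ) (σ : Equiv.Perm (Fin n))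
    (x y : EuclideanSpace ℝ (Fin n)) (hxy : ∀ i, |y i| = |x (σ i)|) : rk ρ k y = rk ρ k x := by
  apply le_antisymm (rk_inv_le h k σ x y hxy)
  apply rk_inv_le h k σ.symm y x
  intro i
  rw [hxy, Equiv.apply_symm_apply]

theorem rk_Sd {ρ : EuclideanSpace ℝ (Fin n) → ℝ} (h : Sd ρ) (k : ℕ) : Sd (rk ρ k) where
  nonneg := rk_nonneg h k
  meas := (rk_cont h k).measurable
  logc := fun x y t h0 h1 => rk_logc h k x y t h0 h1
  inv := fun σ x y hxy => rk_inv h k σ x y hxy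

/-- the support is convex -/
theorem supp_convex {ρ : EuclideanSpace ℝ (Fin n) → ℝ} (h : Sd ρ) : Convex ℝ {x | 0 < ρ x} := by
  rw [convex_iff_forall_pos]
  intro x hx y hy a b ha hb hab
  have hb1 : b < 1 := by linarith
  have h1 := h.logc x y b hb hb1
  have e : 1 - b = a := by linarith
  rw [e] at h1
  exact lt_of_lt_of_le (mul_pos (Real.rpow_pos_of_pos hx _) (Real.rpow_pos_of_pos hy _)) h1

theorem log_concave {ρ : EuclideanSpace ℝ (Fin n) → ℝ} (h : Sd ρ) :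
    ConcaveOn ℝ {x | 0 < ρ x} (fun x => Real.log (ρ x)) := by
  refine ⟨supp_convex h, ?_⟩
  intro x hx y hy a b ha hb hab
  rcases ha.eq_or_lt with h0 | ha'
  · subst h0
    have hb1 : b = 1 := by linarith
    subst hb1
    simp
  rcases hb.eq_or_lt with h0 | hb'
  · subst h0
    have ha1 : a = 1 := by linarith
    subst ha1
    simp
  have h1 := h.logc x y b hb' (by linarith)
  have e : 1 - b = a := by linarith
  rw [e] at h1
  have hx' : 0 < ρ x := hx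
  have hy' : 0 < ρ y := hy
  have h2 := Real.log_le_log (mul_pos (Real.rpow_pos_of_pos hx' _) (Real.rpow_pos_of_pos hy' _)) h1
  rw [Real.log_mul (Real.rpow_pos_of_pos hx' _).ne' (Real.rpow_pos_of_pos hy' _).ne', Real.log_rpow hx',
    Real.log_rpow hy'] at h2
  simpa only [smul_eq_mul] using h2

theorem cont_at {ρ : EuclideanSpace ℝ (Fin n) → ℝ} (h : Sd ρ) {x : EuclideanSpace ℝ (Fin n)}
    (hx : x ∉ frontier {x | 0 < ρ x}) : ContinuousAt ρ x := by
  by_cases h1 : x ∈ closure {x | 0 < ρ x}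
  · have h2 : x ∈ interior {x | 0 < ρ x} := by
      by_contra h3
      exact hx ⟨h1, h3⟩
    have h3 := (log_concave h).continuousOn_interior.continuousAt (isOpen_interior.mem_nhds h2)
    have h4 : ContinuousAt (fun x => Real.exp (Real.log (ρ x))) x := h3.rexp
    refine h4.congr ?_
    filter_upwards [isOpen_interior.mem_nhds h2] with y hy
    have h5 : y ∈ {x : EuclideanSpace ℝ (Fin n) | 0 < ρ x} := interior_subset hy
    exact Real.exp_log h5
  · have h2 : (closure {x | 0 < ρ x})ᶜ ∈ 𝓝 x := isClosed_closure.isOpen_compl.mem_nhds h1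
    have h3 : ContinuousAt (fun _ : EuclideanSpace ℝ (Fin n) => (0 : ℝ)) x := continuousAt_const
    refine h3.congr ?_
    filter_upwards [h2] with y hy
    have h4 : ¬ 0 < ρ y := fun h5 => hy (subset_closure h5)
    exact le_antisymm (h.nonneg y) (not_lt.1 h4)

theorem rk_tend {ρ : EuclideanSpace ℝ (Fin n) → ℝ} (h : Sd ρ) {x : EuclideanSpace ℝ (Fin n)}
    (hx : ContinuousAt ρ x) : Tendsto (fun k => rk ρ k x) atTop (𝓝 (ρ x)) := by
  rw [Metric.tendsto_atTop]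
  intro ε hε
  rw [Metric.continuousAt_iff] at hx
  obtain ⟨δ, hδ, hδ'⟩ := hx (ε / 2) (by positivity)
  have e1 : Tendsto (fun k : ℕ => ρ 0 * Real.exp (-((k : ℝ) * δ))) atTop (𝓝 (ρ 0 * 0)) := by
    apply Tendsto.const_mul
    apply Real.tendsto_exp_neg_atTop_nhds_zero.comp
    exact (tendsto_natCast_atTop_atTop).atTop_mul_const hδ
  rw [mul_zero] at e1
  rw [Metric.tendsto_atTop] at e1
  obtain ⟨N, hN⟩ := e1 (ε / 2) (by positivity)
  refine ⟨N, fun k hk => ?_⟩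
  have h1 := rk_ge h k x
  have h2 : rk ρ k x ≤ ρ x + ε / 2 := by
    apply rk_le
    intro y
    rcases lt_or_ge (dist y x) δ with h3 | h3
    · have h4 := hδ' h3
      rw [Real.dist_eq] at h4
      have h5 := (abs_lt.1 h4).2
      have h6 : Real.exp (-((k : ℝ) * ‖x - y‖)) ≤ 1 := by
        rw [Real.exp_le_one_iff]
        have : 0 ≤ (k : ℝ) * ‖x - y‖ := by positivity
        linarith
      have h7 : ρ y * Real.exp (-((k : ℝ) * ‖x - y‖)) ≤ ρ y * 1 := mul_le_mul_of_nonneg_left h6 (h.nonneg y)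
      linarith
    · have h4 := hN k hk
      rw [Real.dist_eq, sub_zero] at h4
      have h5 := (abs_lt.1 h4).2
      have h6 : δ ≤ ‖x - y‖ := by rwa [dist_comm, dist_eq_norm] at h3
      have h7 : Real.exp (-((k : ℝ) * ‖x - y‖)) ≤ Real.exp (-((k : ℝ) * δ)) := by
        apply Real.exp_le_exp.2
        have := mul_le_mul_of_nonneg_left h6 (Nat.cast_nonneg k : (0 : ℝ) ≤ k)
        linarith
      have h8 : ρ y * Real.exp (-((k : ℝ) * ‖x - y‖)) ≤ ρ 0 * Real.exp (-((k : ℝ) * δ)) :=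
        mul_le_mul (le_zero h y) h7 (Real.exp_pos _).le (h.nonneg 0)
      have := h.nonneg x
      linarith
  rw [Real.dist_eq, abs_of_nonneg (by linarith)]
  linarith

theorem t_X13 : S_X13 := by
  intro n ρ _ h hpos
  obtain ⟨x₀, hx₀⟩ := hpos
  refine ⟨rk ρ, rk_Sd h, rk_cont h, ?_, ⟨ρ 0, fun k x => rk_le k x (fun y => term_le h k x y)⟩, ?_⟩
  · intro k x
    exact lt_of_lt_of_le (mul_pos hx₀ (Real.exp_pos _)) (le_rk h k x x₀)
  · have h1 : (volume : Measure (EuclideanSpace ℝ (Fin n))) (frontier {x | 0 < ρ x}) = 0 :=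
      (supp_convex h).addHaar_frontier volume
    have h2 : ∀ᵐ x : EuclideanSpace ℝ (Fin n), x ∉ frontier {x | 0 < ρ x} := measure_eq_zero_iff_ae_notMem.1 h1
    filter_upwards [h2] with x hx
    exact rk_tend h (cont_at h hx)

end Pool.Agent.J4H17.XC
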